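import Mathlib

/-! Counting primes in the kernel: for `B < n < (B + 1) ^ 2` the number `n` is prime iff it is
coprime to `B!`. -/

namespace Pool.Agent.Lib.MP_7ac6fe_nt

theorem prime_iff_gcd {B n : ℕ} (h1 : B < n) (h2 : n < (B + 1) ^ 2) (hB : 1 ≤ B) :
    n.Prime ↔ Nat.gcd n B.factorial = 1 := by
  constructor
  · intro hn
    exact (Nat.Prime.coprime_iff_not_dvd hn).2 fun h => absurd ((Nat.Prime.dvd_factorial hn).1 h) (by omega)
  · intro h
    by_contra hn
    have hn1 : n ≠ 1 := by omega
    have hp := Nat.minFac_prime hn1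
    have h3 : n.minFac ^ 2 ≤ n := Nat.minFac_sq_le_self (by omega) hn
    have h4 : n.minFac ≤ B := by
      by_contra h5
      have : (B + 1) ^ 2 ≤ n.minFac ^ 2 := Nat.pow_le_pow_left (by omega) 2
      omega
    have h5 : n.minFac ∣ Nat.gcd n B.factorial :=
      Nat.dvd_gcd (Nat.minFac_dvd n) (Nat.dvd_factorial hp.pos h4)
    rw [h] at h5
    exact hp.one_lt.ne' (Nat.dvd_one.1 h5)

/-- the number of `k < len` such that `lo + k` is coprime to `P` -/
def cntR (P : ℕ) : ℕ → ℕ → ℕ → ℕ
  | 0, lo, len => bif Nat.beq len 0 then 0 else bif Nat.beq (Nat.gcd lo P) 1 then 1 else 0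
  | f + 1, lo, len =>
    bif Nat.ble len 1 then
      (bif Nat.beq len 0 then 0 else bif Nat.beq (Nat.gcd lo P) 1 then 1 else 0)
    else Nat.add (cntR P f lo (Nat.div len 2))
      (cntR P f (Nat.add lo (Nat.div len 2)) (Nat.sub len (Nat.div len 2)))

theorem cnt_one (P lo len : ℕ) (h : len ≤ 1) :
    (bif Nat.beq len 0 then 0 else bif Nat.beq (Nat.gcd lo P) 1 then 1 else 0) =
      Nat.count (fun k => Nat.gcd (lo + k) P = 1) len := by
  interval_cases len
  · rfl
  · by_cases h2 : Nat.gcd lo P = 1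
    · simp [Nat.count_succ, h2, Nat.beq]
    · have h3 : Nat.beq (Nat.gcd lo P) 1 = false := by
        rw [← Bool.not_eq_true]
        exact fun h4 => h2 (Nat.eq_of_beq_eq_true h4)
      simp [Nat.count_succ, h2, h3, Nat.beq]

theorem cntR_spec (P : ℕ) : ∀ f lo len, len ≤ 2 ^ f →
    cntR P f lo len = Nat.count (fun k => Nat.gcd (lo + k) P = 1) len := by
  intro f
  induction f with
  | zero =>
    intro lo len h
    exact cnt_one P lo len (by simpa using h)
  | succ f ih =>
    intro lo len h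
    rw [pow_succ] at h
    by_cases h1 : len ≤ 1
    · rw [← cnt_one P lo len h1]
      have : Nat.ble len 1 = true := Nat.ble_eq ▸ h1
      simp only [cntR, this, cond_true]
    · have h2 : Nat.ble len 1 = false := by
        rw [← Bool.not_eq_true, Nat.ble_eq]
        exact h1
      have e : cntR P (f + 1) lo len = cntR P f lo (len / 2) +
          cntR P f (lo + len / 2) (len - len / 2) := by
        simp only [cntR, h2, cond_false]
        rfl
      rw [e, ih _ _ (by omega), ih _ _ (by omega)]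
      have e2 := Nat.count_add (fun k => Nat.gcd (lo + k) P = 1) (len / 2) (len - len / 2)
      rw [show len / 2 + (len - len / 2) = len by omega] at e2
      rw [e2]
      simp only [add_assoc]

theorem count_prime_add {B lo len : ℕ} (hB : 1 ≤ B) (h1 : B < lo) (h2 : lo + len ≤ (B + 1) ^ 2) :
    Nat.count Nat.Prime (lo + len) = Nat.count Nat.Prime lo +
      Nat.count (fun k => Nat.gcd (lo + k) B.factorial = 1) len := by
  induction len with
  | zero => simp
  | succ len ih =>
    rw [← add_assoc, Nat.count_succ, ih (by omega), Nat.count_succ, add_assoc]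
    congr 2
    have := prime_iff_gcd (B := B) (n := lo + len) (by omega) (by omega) hB
    simp only [this]

/-- the check of a list of pairs `(p, r)` with `p` and `r = prime (p + 2)`, `r + 2` prime;
`c` is the number of primes below `x` -/
def chk (B P M : ℕ) : ℕ → ℕ → List (ℕ × ℕ) → Bool
  | _, _, [] => true
  | x, c, (p, r) :: l =>
    Nat.ble x r && Nat.ble (Nat.sub r x) 65536 && Nat.ble (Nat.add r 3) M &&
      Nat.beq (Nat.add c (cntR P 16 x (Nat.sub r x))) (Nat.add p 1) &&
      Nat.beq (Nat.gcd r P) 1 && Nat.beq (Nat.gcd (Nat.add r 2) P) 1 && Nat.ble (Nat.add B 1) p &&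
      Nat.ble (Nat.add p 1) M && Nat.beq (Nat.gcd p P) 1 && chk B P M r (Nat.add p 1) l

theorem chk_spec {B P M : ℕ} (hB : 1 ≤ B) (hP : B.factorial = P) (hM : (B + 1) ^ 2 = M) :
    ∀ (l : List (ℕ × ℕ)) (x c : ℕ), B < x → Nat.count Nat.Prime x = c → chk B P M x c l = true →
      ∀ q ∈ l, q.1.Prime ∧ Nat.count Nat.Prime q.2 = q.1 + 1 ∧ q.2.Prime ∧ (q.2 + 2).Prime := by
  intro l
  induction l with
  | nil => intro x c _ _ _ q hq; cases hq
  | cons a l ih =>
    obtain ⟨p, r⟩ := a
    intro x c hx hc h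
    simp only [chk, Bool.and_eq_true, Nat.ble_eq] at h
    obtain ⟨⟨⟨⟨⟨⟨⟨⟨⟨h1, h2⟩, h3⟩, h4⟩, h5⟩, h6⟩, h7⟩, h8⟩, h9⟩, h10⟩ := h
    have h1' : x ≤ r := h1
    have h2' : r - x ≤ 65536 := h2
    have h3' : r + 3 ≤ M := h3
    have h4' : c + cntR P 16 x (r - x) = p + 1 := Nat.eq_of_beq_eq_true h4
    have h7' : B + 1 ≤ p := h7
    have h8' : p + 1 ≤ M := h8
    have hcr : Nat.count Nat.Prime r = p + 1 := by
      have e := count_prime_add (B := B) (lo := x) (len := r - x) hB hx (by omega)
      rw [hP, ← cntR_spec P 16 x (r - x) (by norm_num; omega), hc, h4'] at e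
      rw [← e]
      congr 1
      omega
    intro q hq
    rcases List.mem_cons.1 hq with rfl | hq
    · refine ⟨?_, hcr, ?_, ?_⟩
      · exact (prime_iff_gcd (B := B) (by omega) (by omega) hB).2 (by rw [hP]; exact Nat.eq_of_beq_eq_true h9)
      · exact (prime_iff_gcd (B := B) (by omega) (by omega) hB).2 (by rw [hP]; exact Nat.eq_of_beq_eq_true h5)
      · exact (prime_iff_gcd (B := B) (by omega) (by omega) hB).2 (by rw [hP]; exact Nat.eq_of_beq_eq_true h6)
    · exact ih r (p + 1) (by omega) hcr h10 q hq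

end Pool.Agent.Lib.MP_7ac6fe_nt
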