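import Mathlib

/-! A list of numbers which is not covered by twelve residue classes modulo distinct odd primes:
general lemmas. -/

namespace Pool.Agent.Lib.MP_7ac6fe_nt

/-! ### the maximal number of elements of a list in a residue class -/

/-- the number of masks in which the bit `c` is set -/
def wt (ms : List ℕ) (c : ℕ) : ℕ := ms.countP fun m => m.testBit c

/-- sets the bit `x` in the first mask in which it is not set -/
def ins (x : ℕ) : List ℕ → List ℕ
  | [] => [Nat.shiftLeft 1 x]
  | m :: ms =>
    bif Nat.beq (Nat.land (Nat.shiftRight m x) 1) 0 then Nat.lor m (Nat.shiftLeft 1 x) :: ms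
    else m :: ins x ms

/-- an upper bound for the number of elements of a list in a residue class modulo `r` -/
def lev (r : ℕ) : List ℕ → List ℕ → ℕ
  | ms, [] => ms.length
  | ms, p :: l => lev r (ins (Nat.mod p r) ms) l

theorem bit_iff (m x : ℕ) : Nat.beq (Nat.land (Nat.shiftRight m x) 1) 0 = !m.testBit x := by
  have h : Nat.land (Nat.shiftRight m x) 1 = (m >>> x) % 2 := Nat.and_one_is_mod _
  rw [h, Nat.testBit_eq_decide_div_mod_eq, Nat.shiftRight_eq_div_pow]
  rcases Nat.mod_two_eq_zero_or_one (m / 2 ^ x) with h0 | h0 <;> rw [h0] <;> rfl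

theorem wt_ins (x : ℕ) (ms : List ℕ) (c : ℕ) :
    wt (ins x ms) c = wt ms c + if x = c then 1 else 0 := by
  induction ms with
  | nil =>
    have h : Nat.shiftLeft 1 x = 2 ^ x := by
      have := Nat.shiftLeft_eq 1 x
      rw [one_mul] at this
      exact this
    simp only [ins, wt, List.countP_cons, List.countP_nil, h, Nat.testBit_two_pow, zero_add,
      decide_eq_true_eq]
  | cons m ms ih =>
    simp only [ins, bit_iff]
    by_cases hb : m.testBit x = true
    · simp only [hb, Bool.not_true, cond_false]
      simp only [wt, List.countP_cons] at ih ⊢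
      rw [ih]
      ring
    · rw [Bool.not_eq_true] at hb
      simp only [hb, Bool.not_false, cond_true]
      have h : Nat.lor m (Nat.shiftLeft 1 x) = m ||| 2 ^ x := by
        have := Nat.shiftLeft_eq 1 x
        rw [one_mul] at this
        show m ||| (1 <<< x) = _
        rw [this]
      simp only [wt, List.countP_cons, h, Nat.testBit_or, Nat.testBit_two_pow]
      by_cases hx : x = c
      · subst hx
        simp [hb]
      · simp [hx]

theorem lev_spec (r : ℕ) : ∀ (l ms : List ℕ) (c : ℕ),
    wt ms c + l.countP (fun p => p % r == c) ≤ lev r ms l := by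
  intro l
  induction l with
  | nil =>
    intro ms c
    simpa [lev, wt] using List.countP_le_length
  | cons p l ih =>
    intro ms c
    have h := ih (ins (p % r) ms) c
    rw [wt_ins] at h
    simp only [List.countP_cons, beq_iff_eq]
    show _ ≤ lev r (ins (p % r) ms) l
    split_ifs at h ⊢ <;> omega

theorem count_le_lev (r : ℕ) (l : List ℕ) (c : ℕ) :
    l.countP (fun p => p % r == c) ≤ lev r [] l := by
  simpa [wt] using lev_spec r l [] c

/-! ### removing two classes -/

/-- the elements of the list outside `u3` modulo `3` and outside `u5` modulo `5` -/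
def filt (u3 u5 : ℕ) : List ℕ → List ℕ
  | [] => []
  | p :: l => bif Nat.beq (Nat.mod p 3) u3 then filt u3 u5 l else
      bif Nat.beq (Nat.mod p 5) u5 then filt u3 u5 l else p :: filt u3 u5 l

theorem beq_false {a b : ℕ} (h : a ≠ b) : Nat.beq a b = false := by
  rw [← Bool.not_eq_true]
  exact fun h2 => h (Nat.eq_of_beq_eq_true h2)

theorem filt_sublist (u3 u5 : ℕ) (l : List ℕ) : (filt u3 u5 l).Sublist l := by
  induction l with
  | nil => exact List.Sublist.refl _
  | cons p l ih =>
    simp only [filt]
    cases Nat.beq (Nat.mod p 3) u3 <;> cases Nat.beq (Nat.mod p 5) u5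
    · exact ih.cons_cons p
    all_goals exact ih.cons p

theorem mem_filt {u3 u5 p : ℕ} {l : List ℕ} (h : p ∈ filt u3 u5 l) :
    p ∈ l ∧ p % 3 ≠ u3 ∧ p % 5 ≠ u5 := by
  induction l with
  | nil => cases h
  | cons q l ih =>
    by_cases h3 : Nat.mod q 3 = u3
    · have e : filt u3 u5 (q :: l) = filt u3 u5 l := by
        simp only [filt]
        rw [h3, Nat.beq_refl]
        rfl
      rw [e] at h
      exact ⟨List.mem_cons_of_mem _ (ih h).1, (ih h).2⟩
    · by_cases h5 : Nat.mod q 5 = u5
      · have e : filt u3 u5 (q :: l) = filt u3 u5 l := by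
          simp only [filt]
          rw [h5, Nat.beq_refl, beq_false h3]
          rfl
        rw [e] at h
        exact ⟨List.mem_cons_of_mem _ (ih h).1, (ih h).2⟩
      · have e : filt u3 u5 (q :: l) = q :: filt u3 u5 l := by
          simp only [filt]
          rw [beq_false h3, beq_false h5]
          rfl
        rw [e] at h
        rcases List.mem_cons.1 h with rfl | h
        · exact ⟨List.mem_cons_self, h3, h5⟩
        · exact ⟨List.mem_cons_of_mem _ (ih h).1, (ih h).2⟩

/-! ### the counting -/

/-- the sum of the excesses over `θ` -/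
def exc (θ : ℕ) (S : List ℕ) : List ℕ → ℕ
  | [] => 0
  | r :: rs => Nat.add (Nat.sub (lev r [] S) θ) (exc θ S rs)

theorem exc_eq (θ : ℕ) (S rs : List ℕ) : exc θ S rs = (rs.map fun r => lev r [] S - θ).sum := by
  induction rs with
  | nil => rfl
  | cons r rs ih =>
    rw [List.map_cons, List.sum_cons, ← ih]
    rfl

theorem length_le_sum (c : ℕ → ℕ) (R : Finset ℕ) (S : List ℕ)
    (h : ∀ p ∈ S, ∃ r ∈ R, p % r = c r) :
    S.length ≤ ∑ r ∈ R, S.countP (fun p => p % r == c r) := by
  induction S with
  | nil => simp
  | cons p l ih =>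
    have h1 := ih fun q hq => h q (List.mem_cons_of_mem _ hq)
    obtain ⟨r, hr, hpr⟩ := h p List.mem_cons_self
    simp only [List.length_cons, List.countP_cons, Finset.sum_add_distrib]
    have h2 : 1 ≤ ∑ r ∈ R, if (p % r == c r) = true then 1 else 0 := by
      have := Finset.single_le_sum (f := fun r => if (p % r == c r) = true then 1 else 0)
        (fun i _ => Nat.zero_le _) hr
      simpa [hpr] using this
    omega

/-- the counting argument -/
theorem not_covered {S rs : List ℕ} (hrs : rs.Nodup) {θ K : ℕ}
    (hchk : exc θ S rs + θ * K < S.length) (c : ℕ → ℕ) (R : Finset ℕ) (hK : R.card ≤ K)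
    (hbig : ∀ r ∈ R, r ∉ rs → S.countP (fun p => p % r == c r) ≤ θ)
    (h : ∀ p ∈ S, ∃ r ∈ R, p % r = c r) : False := by
  have h1 := length_le_sum c R S h
  have h2 : ∑ r ∈ R, S.countP (fun p => p % r == c r) ≤
      ∑ r ∈ R, (θ + if r ∈ rs then lev r [] S - θ else 0) := by
    refine Finset.sum_le_sum fun r hr => ?_
    split_ifs with hm
    · have := count_le_lev r S (c r)
      omega
    · exact (hbig r hr hm).trans (Nat.le_add_right _ _)
  rw [Finset.sum_add_distrib, Finset.sum_const, smul_eq_mul, ← Finset.sum_filter] at h2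
  have h3 : ∑ r ∈ R.filter (· ∈ rs), (lev r [] S - θ) ≤ exc θ S rs := by
    rw [exc_eq, ← List.sum_toFinset _ hrs]
    refine Finset.sum_le_sum_of_subset fun r hr => ?_
    rw [List.mem_toFinset]
    exact (Finset.mem_filter.1 hr).2
  have h4 : R.card * θ ≤ θ * K := by
    rw [mul_comm]
    exact Nat.mul_le_mul_left _ hK
  omega

/-- a list of odd numbers below `6 r` has at most three elements in a class modulo `r` -/
theorem count_le_three {T : List ℕ} (hT : T.Nodup) (hodd : ∀ p ∈ T, p % 2 = 1) {r : ℕ}
    (hr : r % 2 = 1) (hlt : ∀ p ∈ T, p < 6 * r) (c : ℕ) :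
    T.countP (fun p => p % r == c) ≤ 3 := by
  rw [List.countP_eq_length_filter]
  have hn : (T.filter fun p => p % r == c).Nodup := hT.filter _
  have hr0 : 0 < r := by omega
  -- the three candidates
  have hsub : (T.filter fun p => p % r == c) ⊆
      [if c % 2 = 1 then c else c + r, (if c % 2 = 1 then c else c + r) + 2 * r,
        (if c % 2 = 1 then c else c + r) + 4 * r] := by
    intro p hp
    obtain ⟨hp1, hp2⟩ := List.mem_filter.1 hp
    have hp3 : p % r = c := by simpa using hp2
    have h1 := hodd p hp1
    have h2 := hlt p hp1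
    have h3 : c < r := hp3 ▸ Nat.mod_lt _ hr0
    have h4 := Nat.div_add_mod p r
    rw [hp3] at h4
    have h5 : p / r < 6 := Nat.div_lt_of_lt_mul (by rw [mul_comm]; exact h2)
    clear hp2
    generalize p / r = q at h4 h5
    simp only [List.mem_cons, List.not_mem_nil, or_false]
    interval_cases q <;> split_ifs <;> omega
  exact (List.subperm_of_subset hn hsub).length_le

end Pool.Agent.Lib.MP_7ac6fe_nt
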