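import Pool.Agent.Lib.MP_7ac6fe_nt.Count
import Pool.Agent.Lib.MP_7ac6fe_nt.Cover

/-! The numbers of the list `T0` are not covered by twelve residue classes modulo distinct odd
primes. -/

namespace Pool.Agent.Lib.MP_7ac6fe_nt

/-- the list -/
def T0 : List ℕ :=
  [797, 919, 1163, 1277, 1303, 1433, 1619, 1621, 1823, 1867, 1879, 2089, 2309, 2341, 2467, 2521,
   2539, 2689, 2789, 2971, 3089, 3433, 3491, 3671, 3833, 3863, 3947, 3989, 4013, 4139, 4397,
   4723, 4783, 4831, 5099, 5261, 5323, 5333, 5413, 5431, 5581, 5801, 5813, 6073, 6079, 6173,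
   6427, 6473, 6599, 6701, 6763, 6793, 6803, 6899, 6911, 7151, 7457, 8161, 8167, 8273, 8293,
   8461, 8467, 8581, 8681, 8747, 9173, 9377, 9439, 9473, 9811, 9833, 9929, 10009, 10357, 10597,
   10651, 10709, 10883, 11047, 11071, 11117, 11383, 11801, 12071, 12251, 12391, 12491, 12889,
   13003, 13421, 13477, 13591, 13709, 13879, 13963, 14149, 14869, 15307, 15527, 15913, 16069,
   16193, 16363, 16417, 16477, 16493, 16603, 16787, 17747, 18797, 19477, 19609, 19709, 19913,
   20023, 20521, 20551, 20939, 21169, 21347, 21767, 21799, 21871, 22133, 22381, 22567, 22651,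
   22751, 22943, 23027, 23039, 23087, 23117, 23269, 23539, 23581, 23687, 24019, 24049, 24061,
   24169, 24247, 24809, 24821, 24851, 24889, 25261, 25439, 25471, 25583, 25621, 26119, 26297,
   26513, 26729, 27059, 27431, 27883, 27941, 28099, 28123, 28549, 28607, 28657, 29207, 29347,
   29581]

/-- the primes between `7` and `800` -/
def rs0 : List ℕ :=
  [7, 11, 13, 17, 19, 23, 29, 31, 37, 41, 43, 47, 53, 59, 61, 67, 71, 73, 79, 83, 89, 97, 101,
   103, 107, 109, 113, 127, 131, 137, 139, 149, 151, 157, 163, 167, 173, 179, 181, 191, 193,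
   197, 199, 211, 223, 227, 229, 233, 239, 241, 251, 257, 263, 269, 271, 277, 281, 283, 293,
   307, 311, 313, 317, 331, 337, 347, 349, 353, 359, 367, 373, 379, 383, 389, 397, 401, 409,
   419, 421, 431, 433, 439, 443, 449, 457, 461, 463, 467, 479, 487, 491, 499, 503, 509, 521,
   523, 541, 547, 557, 563, 569, 571, 577, 587, 593, 599, 601, 607, 613, 617, 619, 631, 641,
   643, 647, 653, 659, 661, 673, 677, 683, 691, 701, 709, 719, 727, 733, 739, 743, 751, 757,
   761, 769, 773, 787, 797]

/-- `28!` -/
def F28 : ℕ := 304888344611713860501504000000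

/-- `70!` -/
def F70 : ℕ := 11978571669969891796072783721689098736458938142546425857555362864628009582789845319680000000000000000

theorem F28_eq : Nat.factorial 28 = F28 := by decide +kernel
theorem F70_eq : Nat.factorial 70 = F70 := by decide +kernel

/-- `g n` for all `n` in an interval coprime to `P` -/
def allR (P : ℕ) (g : ℕ → Bool) : ℕ → ℕ → ℕ → Bool
  | 0, lo, len =>
    bif Nat.beq len 0 then true else bif Nat.beq (Nat.gcd lo P) 1 then g lo else true
  | f + 1, lo, len =>
    bif Nat.ble len 1 then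
      (bif Nat.beq len 0 then true else bif Nat.beq (Nat.gcd lo P) 1 then g lo else true)
    else allR P g f lo (Nat.div len 2) &&
      allR P g f (Nat.add lo (Nat.div len 2)) (Nat.sub len (Nat.div len 2))

theorem allR_one {P : ℕ} {g : ℕ → Bool} {lo len : ℕ} (h : len ≤ 1)
    (h2 : (bif Nat.beq len 0 then true else bif Nat.beq (Nat.gcd lo P) 1 then g lo else true) =
      true) (k : ℕ) (hk : k < len) (hg : Nat.gcd (lo + k) P = 1) : g (lo + k) = true := by
  have h3 : len = 1 := by omega
  have h4 : k = 0 := by omega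
  subst h3 h4
  rw [Nat.add_zero] at hg ⊢
  rw [hg] at h2
  exact h2

theorem allR_spec (P : ℕ) (g : ℕ → Bool) : ∀ f lo len, len ≤ 2 ^ f → allR P g f lo len = true →
    ∀ k < len, Nat.gcd (lo + k) P = 1 → g (lo + k) = true := by
  intro f
  induction f with
  | zero =>
    intro lo len h h2 k hk hg
    exact allR_one (by simpa using h) h2 k hk hg
  | succ f ih =>
    intro lo len h h2 k hk hg
    rw [pow_succ] at h
    by_cases h1 : len ≤ 1
    · have h3 : Nat.ble len 1 = true := Nat.ble_eq ▸ h1
      refine allR_one h1 ?_ k hk hg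
      simpa only [allR, h3, cond_true] using h2
    · have h3 : Nat.ble len 1 = false := by
        rw [← Bool.not_eq_true, Nat.ble_eq]
        exact h1
      simp only [allR, h3, cond_false, Bool.and_eq_true] at h2
      by_cases hk2 : k < len / 2
      · exact ih lo (len / 2) (by omega) h2.1 k hk2 hg
      · have h4 := ih (lo + len / 2) (len - len / 2) (by omega) h2.2 (k - len / 2) (by omega)
        rw [show lo + len / 2 + (k - len / 2) = lo + k by omega] at h4
        exact h4 hg

/-- membership -/
def elm (r : ℕ) : List ℕ → Bool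
  | [] => false
  | a :: l => Nat.beq a r || elm r l

theorem elm_spec {r : ℕ} {l : List ℕ} (h : elm r l = true) : r ∈ l := by
  induction l with
  | nil => cases h
  | cons a l ih =>
    rw [elm, Bool.or_eq_true] at h
    rcases h with h | h
    · rw [Nat.eq_of_beq_eq_true h]
      exact List.mem_cons_self
    · exact List.mem_cons_of_mem _ (ih h)

theorem rs0_nodup : rs0.Nodup := by decide +kernel

theorem chk_rs0 : allR F28 (fun r => elm r rs0) 10 29 772 = true := by decide +kernel

theorem mem_rs0 {r : ℕ} (hr : r.Prime) (h7 : 7 ≤ r) (h8 : r ≤ 800) : r ∈ rs0 := by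
  by_cases h : r < 29
  · interval_cases r <;> first | decide | exact absurd hr (by decide)
  · have h1 := allR_spec F28 _ 10 29 772 (by norm_num) chk_rs0 (r - 29) (by omega)
    rw [show 29 + (r - 29) = r by omega] at h1
    refine elm_spec (h1 ?_)
    rw [← F28_eq]
    exact (prime_iff_gcd (B := 28) (by omega) (by omega) (by norm_num)).1 hr

theorem chk_big : allR F70 (fun r => Nat.ble (lev r [] T0) 3) 13 801 4200 = true := by
  decide +kernel

/-- the check for the classes `u3` modulo `3` and `u5` modulo `5` -/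
def okC (u3 u5 : ℕ) : Bool :=
  Nat.blt (Nat.add (exc (bif Nat.beq u3 1 || Nat.beq u3 2 then 4 else 6) (filt u3 u5 T0) rs0)
    (Nat.mul (bif Nat.beq u3 1 || Nat.beq u3 2 then 4 else 6)
      (Nat.sub (Nat.sub 12 (bif Nat.blt u3 3 then 1 else 0)) (bif Nat.blt u5 5 then 1 else 0))))
    (filt u3 u5 T0).length

theorem okC_0 : (okC 0 0 && okC 0 1 && okC 0 2 && okC 0 3 && okC 0 4 && okC 0 5) = true := by
  decide +kernel
theorem okC_1 : (okC 1 0 && okC 1 1 && okC 1 2 && okC 1 3 && okC 1 4 && okC 1 5) = true := by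
  decide +kernel
theorem okC_2 : (okC 2 0 && okC 2 1 && okC 2 2 && okC 2 3 && okC 2 4 && okC 2 5) = true := by
  decide +kernel
theorem okC_3 : (okC 3 0 && okC 3 1 && okC 3 2 && okC 3 3 && okC 3 4 && okC 3 5) = true := by
  decide +kernel

theorem okC_all {u3 u5 : ℕ} (h3 : u3 ≤ 3) (h5 : u5 ≤ 5) : okC u3 u5 = true := by
  have h0 := okC_0
  have h1 := okC_1
  have h2 := okC_2
  have h4 := okC_3
  simp only [Bool.and_eq_true] at h0 h1 h2 h4
  interval_cases u3 <;> interval_cases u5 <;> simp only [h0, h1, h2, h4]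

end Pool.Agent.Lib.MP_7ac6fe_nt
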