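import Pool.Agent.Lib.MP_7ac6fe_nt.Cert
import Pool.Agent.Lib.MP_7ac6fe_nt.CoverCert

namespace Pool.Agent.Lib.MP_7ac6fe_nt

theorem T0_eq : (TL.map fun q => q.1) = T0 := by decide +kernel

theorem T0_nodup : T0.Nodup := by decide +kernel

theorem T0_odd : ∀ p ∈ T0, p % 2 = 1 := by decide +kernel

theorem T0_lt : ∀ p ∈ T0, p < 30000 := by decide +kernel

/-- the elements of `T0` are admissible -/
theorem T0_spec {p : ℕ} (hp : p ∈ T0) : p.Prime ∧ (Nat.nth Nat.Prime (p + 1) + 2).Prime := by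
  rw [← T0_eq, List.mem_map] at hp
  obtain ⟨q, hq, rfl⟩ := hp
  obtain ⟨h1, h2, h3⟩ := TL_spec q hq
  exact ⟨h1, by rw [h2]; exact h3⟩

theorem count_T0_le {r : ℕ} (hr : r.Prime) (h : 800 < r) (c : ℕ) :
    T0.countP (fun p => p % r == c) ≤ 3 := by
  by_cases h2 : r ≤ 5000
  · have h1 := allR_spec F70 _ 13 801 4200 (by norm_num) chk_big (r - 801) (by omega)
    rw [show 801 + (r - 801) = r by omega] at h1
    refine (count_le_lev r T0 c).trans (Nat.le_of_ble_eq_true (h1 ?_))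
    rw [← F70_eq]
    exact (prime_iff_gcd (B := 70) (by omega) (by omega) (by norm_num)).1 hr
  · have hodd : r % 2 = 1 := by
      rcases hr.eq_two_or_odd with h3 | h3
      · omega
      · exact h3
    exact count_le_three T0_nodup T0_odd hodd (fun p hp => (T0_lt p hp).trans (by omega)) c

/-- `T0` is not covered by twelve residue classes modulo distinct odd primes. -/
theorem exists_outside (c : ℕ → ℕ) (R : Finset ℕ) (hR : ∀ r ∈ R, r.Prime ∧ r ≠ 2)
    (hK : R.card ≤ 12) : ∃ p ∈ T0, ∀ r ∈ R, p % r ≠ c r := by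
  by_contra hcon
  push Not at hcon
  -- the classes modulo 3 and 5
  obtain ⟨u3, h3, h3a, h3b⟩ : ∃ u3 ≤ 3, (u3 < 3 → 3 ∈ R) ∧
      ∀ p, p % 3 ≠ u3 → ¬ (3 ∈ R ∧ p % 3 = c 3) := by
    by_cases h : 3 ∈ R ∧ c 3 < 3
    · exact ⟨c 3, h.2.le, fun _ => h.1, fun p h1 h2 => h1 h2.2⟩
    · refine ⟨3, le_rfl, fun h1 => absurd h1 (lt_irrefl _), fun p _ h2 => h ⟨h2.1, ?_⟩⟩
      rw [← h2.2]
      exact Nat.mod_lt _ (by norm_num)
  obtain ⟨u5, h5, h5a, h5b⟩ : ∃ u5 ≤ 5, (u5 < 5 → 5 ∈ R) ∧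
      ∀ p, p % 5 ≠ u5 → ¬ (5 ∈ R ∧ p % 5 = c 5) := by
    by_cases h : 5 ∈ R ∧ c 5 < 5
    · exact ⟨c 5, h.2.le, fun _ => h.1, fun p h1 h2 => h1 h2.2⟩
    · refine ⟨5, le_rfl, fun h1 => absurd h1 (lt_irrefl _), fun p _ h2 => h ⟨h2.1, ?_⟩⟩
      rw [← h2.2]
      exact Nat.mod_lt _ (by norm_num)
  have hok := okC_all h3 h5
  unfold okC at hok
  set θ := (bif Nat.beq u3 1 || Nat.beq u3 2 then 4 else 6) with hθ
  have hθ3 : 3 ≤ θ := by
    rw [hθ]
    cases (Nat.beq u3 1 || Nat.beq u3 2) <;> simp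
  have hlt := Nat.le_of_ble_eq_true hok
  refine not_covered (S := filt u3 u5 T0) (rs := rs0) rs0_nodup (θ := θ)
    (K := Nat.sub (Nat.sub 12 (bif Nat.blt u3 3 then 1 else 0)) (bif Nat.blt u5 5 then 1 else 0))
    hlt c ((R.erase 3).erase 5) ?_ ?_ ?_
  · -- the cardinality
    have e3 : (R.erase 3).card ≤ Nat.sub 12 (bif Nat.blt u3 3 then 1 else 0) := by
      by_cases h : u3 < 3
      · have h1 : Nat.blt u3 3 = true := Nat.ble_eq ▸ h
        rw [h1, cond_true, Finset.card_erase_of_mem (h3a h)]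
        show _ ≤ 12 - 1
        omega
      · have h1 : Nat.blt u3 3 = false := by
          rw [← Bool.not_eq_true]
          exact fun h2 => h (Nat.le_of_ble_eq_true h2)
        rw [h1, cond_false]
        exact (Finset.card_le_card (Finset.erase_subset _ _)).trans hK
    by_cases h : u5 < 5
    · have h1 : Nat.blt u5 5 = true := Nat.ble_eq ▸ h
      rw [h1, cond_true, Finset.card_erase_of_mem (Finset.mem_erase.2 ⟨by norm_num, h5a h⟩)]
      show _ ≤ Nat.sub 12 _ - 1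
      omega
    · have h1 : Nat.blt u5 5 = false := by
        rw [← Bool.not_eq_true]
        exact fun h2 => h (Nat.le_of_ble_eq_true h2)
      rw [h1, cond_false]
      exact (Finset.card_le_card (Finset.erase_subset _ _)).trans e3
  · intro r hr hrs
    simp only [Finset.mem_erase] at hr
    obtain ⟨hr2, hr3, hr4⟩ := hr
    obtain ⟨hp, hr5⟩ := hR r hr4
    have h7 : 7 ≤ r := by
      by_contra h
      have : r < 7 := by omega
      interval_cases r <;> first | omega | exact absurd hp (by norm_num)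
    have h8 : 800 < r := by
      by_contra h
      exact hrs (mem_rs0 hp h7 (by omega))
    exact ((List.Sublist.countP_le (filt_sublist u3 u5 T0)).trans
      (count_T0_le hp h8 (c r))).trans hθ3
  · intro p hp
    obtain ⟨hp1, hp3, hp5⟩ := mem_filt hp
    obtain ⟨r, hr, hpr⟩ := hcon p hp1
    refine ⟨r, ?_, hpr⟩
    rw [Finset.mem_erase, Finset.mem_erase]
    refine ⟨?_, ?_, hr⟩
    · rintro rfl
      exact h5b p hp5 ⟨hr, hpr⟩
    · rintro rfl
      exact h3b p hp3 ⟨hr, hpr⟩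

end Pool.Agent.Lib.MP_7ac6fe_nt
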